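import Pool.Agent.Helper26.HB.Goals

/-! Packet HB-JM (MP_a47ed5_al): no upward jumps. -/

set_option autoImplicit false

open Pool.Agent.Helper7.Horo (len Gen bb len_mul len_inv len_one)

open scoped commutatorElement

namespace Pool.Agent.Helper4.HB

section nf

variable {G : Type} [Group G] {a b c : G}

lemma swap (hc : ⁅a, b⁆ = c) (ha : c * a = a * c) (hb : c * b = b * c) (i j : ℤ) :
    b ^ j * a ^ i = a ^ i * b ^ j * c ^ (-(i * j)) := by
  have hca : Commute c a := ha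
  have hcb : Commute c b := hb
  have h1 : a * b * a⁻¹ = c * b := by
    rw [← hc, commutatorElement_def]; group
  have h2 : a ^ i * b * (a ^ i)⁻¹ = c ^ i * b := by
    have h3 : b * a * b⁻¹ = c⁻¹ * a := by
      have : b * a = c⁻¹ * (a * b) := by
        rw [eq_inv_mul_iff_mul_eq, ← mul_assoc, ← h1]; group
      rw [this]; group
    have h4 : b * a ^ i * b⁻¹ = (c ^ i)⁻¹ * a ^ i := by
      rw [← conj_zpow, h3, (hca.inv_left).mul_zpow, inv_zpow]
    have h5 : b * a ^ i = (c ^ i)⁻¹ * a ^ i * b := by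
      rw [← h4]; group
    have h6 : c ^ i * b * a ^ i = a ^ i * b := by
      rw [mul_assoc, h5]; group
    rw [← h6]; group
  have h3 : a ^ i * b ^ j * (a ^ i)⁻¹ = c ^ (i * j) * b ^ j := by
    rw [← conj_zpow, h2, ((hcb.zpow_left i)).mul_zpow, ← zpow_mul]
  have h4 : a ^ i * b ^ j = c ^ (i * j) * (b ^ j * a ^ i) := by
    rw [← mul_assoc, ← h3]; group
  have h5 : Commute (c ^ (i * j)) (b ^ j * a ^ i) :=
    ((hcb.zpow_zpow _ _)).mul_right (hca.zpow_zpow _ _)
  rw [h4, h5.eq, mul_assoc, ← zpow_add]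
  simp

lemma nfmul (hc : ⁅a, b⁆ = c) (ha : c * a = a * c) (hb : c * b = b * c) (i j k i' j' k' : ℤ) :
    (a ^ i * b ^ j * c ^ k) * (a ^ i' * b ^ j' * c ^ k')
      = a ^ (i + i') * b ^ (j + j') * c ^ (k + k' - i' * j) := by
  have hca : Commute c a := ha
  have hcb : Commute c b := hb
  have h1 := swap hc ha hb i' j
  have h2 : Commute (c ^ k) (a ^ i' * b ^ j') := (hca.zpow_zpow _ _).mul_right (hcb.zpow_zpow _ _)
  have h3 : Commute (c ^ (-(i' * j))) (b ^ j') := hcb.zpow_zpow _ _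
  calc (a ^ i * b ^ j * c ^ k) * (a ^ i' * b ^ j' * c ^ k')
      = a ^ i * b ^ j * (c ^ k * (a ^ i' * b ^ j')) * c ^ k' := by group
    _ = a ^ i * (b ^ j * a ^ i') * b ^ j' * c ^ k * c ^ k' := by rw [h2.eq]; group
    _ = a ^ i * a ^ i' * b ^ j * (c ^ (-(i' * j)) * b ^ j') * c ^ k * c ^ k' := by
        rw [h1]; simp only [mul_assoc]
    _ = a ^ i * a ^ i' * (b ^ j * b ^ j') * (c ^ (-(i' * j)) * c ^ k * c ^ k') := by
        rw [h3.eq]; simp only [mul_assoc]
    _ = _ := by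
        rw [← zpow_add, ← zpow_add, ← zpow_add, ← zpow_add]
        congr 2
        ring

/-- normal form -/
def nf (a b c : G) (i j k : ℤ) : G := a ^ i * b ^ j * c ^ k

lemma nf_mul (hc : ⁅a, b⁆ = c) (ha : c * a = a * c) (hb : c * b = b * c) (i j k i' j' k' : ℤ) :
    nf a b c i j k * nf a b c i' j' k' = nf a b c (i + i') (j + j') (k + k' - i' * j) :=
  nfmul hc ha hb i j k i' j' k'

lemma nf_a (n : ℕ) : a ^ n = nf a b c n 0 0 := by simp [nf]

lemma nf_b (n : ℕ) : b ^ n = nf a b c 0 n 0 := by simp [nf]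

lemma nf_ainv (n : ℕ) : (a ^ n)⁻¹ = nf a b c (-n) 0 0 := by simp [nf]

lemma nf_binv (n : ℕ) : (b ^ n)⁻¹ = nf a b c 0 (-n) 0 := by simp [nf]

end nf

section len

variable {G : Type} [Group G] {S : Finset G}

lemma len_pow (hS : Gen S) (g : G) (n : ℕ) : len S (g ^ n) ≤ n * len S g := by
  induction n with
  | zero => simp [len_one]
  | succ n ih =>
    rw [pow_succ]
    refine (len_mul hS _ _).trans ?_
    nlinarith

end len

theorem gJM : Pool.Agent.Helper26.HB.G_JM := by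
  intro G _ S hS a b ℓa C hca hcb hlen
  have hC : 0 ≤ C := by
    have := hlen 0
    simp only [pow_zero, len_one, Nat.cast_zero, zero_mul, zero_add] at this
    exact this
  refine ⟨2 * (len S a : ℝ) + 2 * len S b + 2 * C + 2, by positivity, ?_⟩
  intro R m δ n hR hδ
  set c := ⁅a, b⁆ with hc
  set N := n - R with hN
  have hNpos : 0 < N := by omega
  set x := R * δ / N with hx
  set r := R * δ % N with hr
  set q := r / δ with hq
  set s := r % δ with hs
  have e1 : R * δ = N * x + r := (Nat.div_add_mod _ _).symm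
  have e2 : r = δ * q + s := (Nat.div_add_mod _ _).symm
  have hsl : s < δ := Nat.mod_lt _ (by omega)
  have hrl : r < N := Nat.mod_lt _ hNpos
  have key : b⁻¹ ^ R * a ^ (m + δ) * b ^ n
      = ((b ^ (q + 1))⁻¹ * a ^ s * b * a ^ (δ - s) * b ^ q) * a ^ x *
        (b⁻¹ ^ R * a ^ m * b ^ n) * (a ^ x)⁻¹ := by
    have hb1 : b = nf a b c 0 (1 : ℤ) 0 := by simp [nf]
    have hcast : ((δ - s : ℕ) : ℤ) = (δ : ℤ) - s := by
      rw [Nat.cast_sub hsl.le]
    have hn : (n : ℤ) = N + R := by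
      rw [hN]; push_cast [Nat.cast_sub hR.le]; ring
    have e1' : (R : ℤ) * δ = N * x + r := by exact_mod_cast e1
    have e2' : (r : ℤ) = δ * q + s := by exact_mod_cast e2
    have hb2 : (b ^ (q + 1))⁻¹ * a ^ s * b * a ^ (δ - s) * b ^ q
        = nf a b c δ 0 (δ * q + s) := by
      conv_lhs => rw [nf_binv (a := a) (b := b) (c := c), nf_a (a := a) (b := b) (c := c) s,
        nf_a (a := a) (b := b) (c := c) (δ - s), nf_b (a := a) (b := b) (c := c) q]
      conv_lhs => enter [1, 1, 2]; rw [hb1]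
      simp only [nf_mul hc.symm hca hcb]
      rw [hcast]
      congr 1 <;> push_cast <;> ring
    rw [hb2, inv_pow, nf_binv (a := a) (b := b) (c := c) R,
      nf_a (a := a) (b := b) (c := c) (m + δ), nf_b (a := a) (b := b) (c := c) n,
      nf_ainv (a := a) (b := b) (c := c) x, nf_a (a := a) (b := b) (c := c) x,
      nf_a (a := a) (b := b) (c := c) m]
    simp only [nf_mul hc.symm hca hcb]
    rw [hn]
    congr 1
    · push_cast; ring
    · ring
    · push_cast
      linear_combination e1' + e2'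
  have hl1 : len S (b⁻¹ ^ R * a ^ (m + δ) * b ^ n)
      ≤ (len S (b ^ (q + 1)) + len S (a ^ s) + len S b + len S (a ^ (δ - s)) + len S (b ^ q))
        + len S (a ^ x) + len S (b⁻¹ ^ R * a ^ m * b ^ n) + len S (a ^ x) := by
    rw [key]
    have t1 := len_mul hS (((b ^ (q + 1))⁻¹ * a ^ s * b * a ^ (δ - s) * b ^ q) * a ^ x *
        (b⁻¹ ^ R * a ^ m * b ^ n)) ((a ^ x)⁻¹)
    have t2 := len_mul hS (((b ^ (q + 1))⁻¹ * a ^ s * b * a ^ (δ - s) * b ^ q) * a ^ x)
        (b⁻¹ ^ R * a ^ m * b ^ n)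
    have t3 := len_mul hS ((b ^ (q + 1))⁻¹ * a ^ s * b * a ^ (δ - s) * b ^ q) (a ^ x)
    have t4 := len_mul hS ((b ^ (q + 1))⁻¹ * a ^ s * b * a ^ (δ - s)) (b ^ q)
    have t5 := len_mul hS ((b ^ (q + 1))⁻¹ * a ^ s * b) (a ^ (δ - s))
    have t6 := len_mul hS ((b ^ (q + 1))⁻¹ * a ^ s) b
    have t7 := len_mul hS ((b ^ (q + 1))⁻¹) (a ^ s)
    have t8 := len_inv hS (b ^ (q + 1))
    have t9 := len_inv hS (a ^ x)
    omega
  have hl2 := len_pow hS b (q + 1)
  have hl3 := len_pow hS b q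
  have hl4 := len_pow hS a x
  have hl5 := hlen s
  have hl6 := hlen (δ - s)
  have hl7 : (len S (b⁻¹ ^ R * a ^ (m + δ) * b ^ n) : ℝ)
      ≤ (len S (b ^ (q + 1)) + len S (a ^ s) + len S b + len S (a ^ (δ - s)) + len S (b ^ q))
        + len S (a ^ x) + len S (b⁻¹ ^ R * a ^ m * b ^ n) + len S (a ^ x) := by
    exact_mod_cast hl1
  have hl2' : (len S (b ^ (q + 1)) : ℝ) ≤ (q + 1) * len S b := by exact_mod_cast hl2
  have hl3' : (len S (b ^ q) : ℝ) ≤ q * len S b := by exact_mod_cast hl3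
  have hl4' : (len S (a ^ x) : ℝ) ≤ x * len S a := by exact_mod_cast hl4
  have hcast : ((δ - s : ℕ) : ℝ) = (δ : ℝ) - s := by rw [Nat.cast_sub hsl.le]
  rw [hcast] at hl6
  have hNr : (N : ℝ) = (n : ℝ) - R := by rw [hN, Nat.cast_sub hR.le]
  have hNp : (0 : ℝ) < N := by exact_mod_cast hNpos
  have hδp : (0 : ℝ) < δ := by exact_mod_cast hδ
  rw [← hNr]
  have hxle : (x : ℝ) ≤ (R : ℝ) * δ / N := by
    rw [le_div_iff₀ hNp]
    have : x * N ≤ R * δ := Nat.div_mul_le_self _ _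
    exact_mod_cast this
  have hqle : (q : ℝ) ≤ (N : ℝ) / δ := by
    rw [le_div_iff₀ hδp]
    have : q * δ ≤ N := (Nat.div_mul_le_self _ _).trans hrl.le
    exact_mod_cast this
  set X := (R : ℝ) * δ / N
  set Y := (N : ℝ) / δ
  have hX : 0 ≤ X := (Nat.cast_nonneg x).trans hxle
  have hY : 0 ≤ Y := (Nat.cast_nonneg q).trans hqle
  have ha0 : (0 : ℝ) ≤ len S a := Nat.cast_nonneg _
  have hb0 : (0 : ℝ) ≤ len S b := Nat.cast_nonneg _
  have p1 : (x : ℝ) * len S a ≤ X * len S a := mul_le_mul_of_nonneg_right hxle ha0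
  have p2 : (q : ℝ) * len S b ≤ Y * len S b := mul_le_mul_of_nonneg_right hqle hb0
  have p3 : 0 ≤ X * len S b := mul_nonneg hX hb0
  have p4 : 0 ≤ Y * len S a := mul_nonneg hY ha0
  have p5 : 0 ≤ X * C := mul_nonneg hX hC
  have p6 : 0 ≤ Y * C := mul_nonneg hY hC
  nlinarith

end Pool.Agent.Helper4.HB
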